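import Mathlib

namespace Pool.Agent.Results.MP_8e2370_an.NotConvex

open Set

theorem result : ∃ (k : ℕ) (p α : Fin k → ℝ) (j j' : Fin k), 3 ≤ k ∧ StrictMono p ∧
    (∀ l, 0 < α l) ∧ (j' : ℕ) = j + 1 ∧ ∀ K : Set ℂ, Convex ℝ K → IsClosed K →
      frontier K ≠ (fun z : ℂ => ∑ l, (α l : ℂ) / (z - p l)) ''
        {z | ‖z - ((p j + p j') / 2 : ℝ)‖ = (p j' - p j) / 2 ∧ 0 < z.im} := by
  refine ⟨3, ![-1, 1, 2], ![1, 1, 10], 0, 1, le_rfl, ?_, ?_, rfl, fun K hK hc h => ?_⟩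
  · refine Fin.strictMono_iff_lt_succ.2 fun i => ?_
    fin_cases i <;> simp
  · intro l; fin_cases l <;> simp
  have key : ∀ x y u v : ℝ, x ^ 2 + y ^ 2 = 1 → 0 < y →
      u = (x + 1) / ((x + 1) ^ 2 + y ^ 2) + (x - 1) / ((x - 1) ^ 2 + y ^ 2) +
        10 * (x - 2) / ((x - 2) ^ 2 + y ^ 2) →
      v = -y / ((x + 1) ^ 2 + y ^ 2) - y / ((x - 1) ^ 2 + y ^ 2) -
        10 * y / ((x - 2) ^ 2 + y ^ 2) → (⟨u, v⟩ : ℂ) ∈ frontier K := by
    rintro x y u v h1 h2 rfl rfl
    rw [h]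
    refine ⟨⟨x, y⟩, ⟨?_, h2⟩, ?_⟩
    · simp [Complex.norm_eq_sqrt_sq_add_sq, h1]
    · apply Complex.ext <;> simp [Fin.sum_univ_three, Complex.div_re, Complex.div_im,
        Complex.normSq_apply] <;> ring
  have hA := hc.frontier_subset (key (24 / 25) (7 / 25) (-260 / 29) (-1215 / 203) (by norm_num)
    (by norm_num) (by norm_num) (by norm_num))
  have hC := hc.frontier_subset (key 0 1 (-4) (-3) (by norm_num)
    (by norm_num) (by norm_num) (by norm_num))
  have hD := hc.frontier_subset (key (399 / 401) (40 / 401) (-4030 / 409) (-180009 / 16360)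
    (by norm_num) (by norm_num) (by norm_num) (by norm_num))
  have hB := key (4 / 5) (3 / 5) (-20 / 3) (-5) (by norm_num)
    (by norm_num) (by norm_num) (by norm_num)
  let l1 : ℂ → ℝ := fun w => (-66613 / 185328) * w.re + (1015 / 3861) * w.im + (-30073 / 46332)
  let l2 : ℂ → ℝ := fun w => (47477 / 210672) * w.re + (-25 / 627) * w.im + (93845 / 52668)
  refine hB.2 (mem_interior.2 ⟨{w | 0 < l1 w} ∩ {w | 0 < l2 w} ∩ {w | l1 w + l2 w < 1}, ?_,
    ((isOpen_lt continuous_const (by fun_prop)).inter (isOpen_lt continuous_const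
      (by fun_prop))).inter (isOpen_lt (by fun_prop) continuous_const), ?_⟩)
  · rintro w ⟨⟨h1, h2⟩, h3⟩
    have := hK.sum_mem (t := Finset.univ) (w := ![l1 w, l2 w, 1 - l1 w - l2 w])
      (z := ![⟨(-260 / 29), (-1215 / 203)⟩, ⟨-4, -3⟩, ⟨(-4030 / 409), (-180009 / 16360)⟩])
      (fun i _ => by
        have h1' : 0 < l1 w := h1
        have h2' : 0 < l2 w := h2
        have h3' : l1 w + l2 w < 1 := h3
        fin_cases i <;> simp <;> linarith) (by simp [Fin.sum_univ_three])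
      (fun i _ => by fin_cases i <;> assumption)
    convert this using 1
    apply Complex.ext <;> simp [Fin.sum_univ_three, l1, l2] <;> ring
  · simp only [mem_inter_iff, mem_ofPred_eq, l1, l2]; norm_num

end Pool.Agent.Results.MP_8e2370_an.NotConvex
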